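import Pool.Agent.helper94.EU.SpecII

set_option autoImplicit false

open Finset

noncomputable section

namespace Pool.Agent.EU

open Pool.Agent.FI Pool.Agent.FJ

theorem CNE : CNE_stmt := by
  classical
  intro D R₀ hD G
  haveI : NeZero D := ⟨by omega⟩
  symm
  rw [Finset.sum_sigma' ((Icc 1 R₀).filter (fun r => r ∣ D))
    (fun r => (univ : Finset (DirichletCharacter ℂ r)).filter (fun ψ => ψ.IsPrimitive))
    (fun r ψ => G (fun n => if IsCoprime n (D : ℤ) then ψ (n : ZMod r) else 0))]
  have hdvd : ∀ a ∈ ((Icc 1 R₀).filter (fun r => r ∣ D)).sigma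
      (fun r => (univ : Finset (DirichletCharacter ℂ r)).filter (fun ψ => ψ.IsPrimitive)), a.1 ∣ D := by
    intro a ha
    exact (mem_filter.1 (mem_sigma.1 ha).1).2
  have hprim : ∀ a ∈ ((Icc 1 R₀).filter (fun r => r ∣ D)).sigma
      (fun r => (univ : Finset (DirichletCharacter ℂ r)).filter (fun ψ => ψ.IsPrimitive)), a.2.IsPrimitive := by
    intro a ha
    exact (mem_filter.1 (mem_sigma.1 ha).2).2
  have hle : ∀ a ∈ ((Icc 1 R₀).filter (fun r => r ∣ D)).sigma
      (fun r => (univ : Finset (DirichletCharacter ℂ r)).filter (fun ψ => ψ.IsPrimitive)), a.1 ≤ R₀ := by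
    intro a ha
    exact (mem_Icc.1 (mem_filter.1 (mem_sigma.1 ha).1).1).2
  refine Finset.sum_bij (fun a ha => DirichletCharacter.changeLevel (hdvd a ha) a.2) ?_ ?_ ?_ ?_
  · intro a ha
    rw [mem_filter, DirichletCharacter.conductor_changeLevel]
    refine ⟨mem_univ _, ?_⟩
    have h := (DirichletCharacter.isPrimitive_def _).1 (hprim a ha)
    rw [h]
    exact hle a ha
  · intro a ha b hb hab
    have h1 := (DirichletCharacter.isPrimitive_def _).1 (hprim a ha)
    have h2 := (DirichletCharacter.isPrimitive_def _).1 (hprim b hb)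
    have h3 := congrArg DirichletCharacter.conductor hab
    rw [DirichletCharacter.conductor_changeLevel, DirichletCharacter.conductor_changeLevel, h1, h2] at h3
    obtain ⟨r, ψ⟩ := a
    obtain ⟨r', ψ'⟩ := b
    simp only at h3
    subst h3
    have h4 : ψ = ψ' := DirichletCharacter.changeLevel_injective _ hab
    rw [h4]
  · intro χ hχ
    rw [mem_filter] at hχ
    refine ⟨⟨χ.conductor, χ.primitiveCharacter⟩, ?_, ?_⟩
    · rw [mem_sigma, mem_filter, mem_filter, mem_Icc]
      refine ⟨⟨⟨?_, hχ.2⟩, χ.conductor_dvd_level⟩, mem_univ _, χ.primitiveCharacter_isPrimitive⟩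
      exact Nat.one_le_iff_ne_zero.2 χ.conductor_ne_zero
    · exact χ.changeLevel_primitiveCharacter
  · intro a ha
    congr 1
    funext n
    by_cases hn : IsCoprime n (D : ℤ)
    · rw [if_pos hn, DirichletCharacter.changeLevel_eq_cast_of_dvd' _ _ hn]
    · have hu : ¬ IsUnit (n : ZMod D) := fun hu => hn ((ZMod.coe_int_isUnit_iff_isCoprime n D).mp hu).symm
      rw [if_neg hn, MulChar.map_nonunit _ hu]

end Pool.Agent.EU
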