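import Pool.Agent.helper94.EU.SpecII

set_option autoImplicit false

open Finset

noncomputable section

namespace Pool.Agent.EU

open Pool.Agent.FI Pool.Agent.FJ

theorem COQ_card (x g : ℕ) (hg : 1 ≤ g) :
    (#{l ∈ Ioc (x : ℤ) (2 * x) | (g : ℤ) ∣ l} : ℝ) ≤ x / g + 1 := by
  have hg0 : (0 : ℤ) < g := by omega
  have hq : (0 : ℚ) < g := by exact_mod_cast hg
  have h := Int.Ioc_filter_dvd_card (x : ℤ) (2 * x) hg0
  have h1 : ((⌊((2 * x : ℤ) : ℚ) / ((g : ℤ) : ℚ)⌋ - ⌊((x : ℤ) : ℚ) / ((g : ℤ) : ℚ)⌋ : ℤ) : ℚ) ≤ x / g + 1 := by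
    have a1 := Int.floor_le (((2 * x : ℤ) : ℚ) / ((g : ℤ) : ℚ))
    have a2 := Int.lt_floor_add_one (((x : ℤ) : ℚ) / ((g : ℤ) : ℚ))
    push_cast at a1 a2 ⊢
    have a3 : 2 * (x : ℚ) / g = x / g + x / g := by ring
    linarith
  have h2 : ((#{l ∈ Ioc (x : ℤ) (2 * x) | (g : ℤ) ∣ l} : ℤ) : ℚ) ≤ x / g + 1 := by
    rw [h]
    push_cast
    push_cast at h1
    have h3 : (0 : ℚ) ≤ x / g + 1 := by positivity
    exact max_le h1 h3
  have h3 : (((#{l ∈ Ioc (x : ℤ) (2 * x) | (g : ℤ) ∣ l} : ℕ) : ℚ) : ℝ) ≤ (((x : ℚ) / g + 1 : ℚ) : ℝ) := by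
    exact_mod_cast h2
  push_cast at h3
  exact h3

theorem COQ_pf (D : ℕ) (hD : 1 ≤ D) : (#D.primeFactors : ℝ) ≤ 2 * Real.log D := by
  have h1 : 2 ^ #D.primeFactors ≤ D := by
    have h2 : 2 ^ #D.primeFactors ≤ ∏ p ∈ D.primeFactors, p :=
      Finset.pow_card_le_prod _ _ _ (fun p hp => (Nat.prime_of_mem_primeFactors hp).two_le)
    exact h2.trans (Nat.le_of_dvd (by omega) (Nat.prod_primeFactors_dvd D))
  have h3 : ((2 : ℝ)) ^ #D.primeFactors ≤ D := by exact_mod_cast h1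
  have h4 := Real.log_le_log (by positivity) h3
  rw [Real.log_pow] at h4
  have h5 : (1 : ℝ) / 2 ≤ Real.log 2 := by
    have := Real.log_two_gt_d9
    linarith
  have h6 : (0 : ℝ) ≤ #D.primeFactors := by positivity
  nlinarith

theorem COQ : COQ_stmt := by
  classical
  intro x Z M lam hx hZ hlam D hD
  have hsub : ({l ∈ Ioc (x : ℤ) (2 * x) | lam l ≠ 0 ∧ ¬ IsCoprime l (D : ℤ)} : Finset ℤ) ⊆
      (D.primeFactors.filter (fun g => Z < g)).biUnion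
        (fun g => {l ∈ Ioc (x : ℤ) (2 * x) | (g : ℤ) ∣ l}) := by
    intro l hl
    rw [mem_filter] at hl
    obtain ⟨hl1, hl2, hl3⟩ := hl
    rw [Int.isCoprime_iff_gcd_eq_one] at hl3
    obtain ⟨g, hg, hgd⟩ := Nat.exists_prime_and_dvd hl3
    have hgl : (g : ℤ) ∣ l := (Int.natCast_dvd_natCast.2 hgd).trans (Int.gcd_dvd_left ..)
    have hgD : (g : ℤ) ∣ (D : ℤ) := (Int.natCast_dvd_natCast.2 hgd).trans (Int.gcd_dvd_right ..)
    have hgD' : g ∣ D := Int.natCast_dvd_natCast.1 hgD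
    have hZg : Z < g := by
      by_contra hcon
      push Not at hcon
      exact (hlam.2 l hl2).2.2 g hg hcon hgl
    rw [mem_biUnion]
    refine ⟨g, ?_, ?_⟩
    · rw [mem_filter]
      exact ⟨Nat.mem_primeFactors.2 ⟨hg, hgD', by omega⟩, hZg⟩
    · rw [mem_filter]
      exact ⟨hl1, hgl⟩
  have h1 := (card_le_card hsub).trans card_biUnion_le
  have h2 : (#{l ∈ Ioc (x : ℤ) (2 * x) | lam l ≠ 0 ∧ ¬ IsCoprime l (D : ℤ)} : ℝ) ≤
      ∑ g ∈ D.primeFactors.filter (fun g => Z < g), (#{l ∈ Ioc (x : ℤ) (2 * x) | (g : ℤ) ∣ l} : ℝ) := by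
    exact_mod_cast h1
  have h3 : ∀ g ∈ D.primeFactors.filter (fun g => Z < g),
      (#{l ∈ Ioc (x : ℤ) (2 * x) | (g : ℤ) ∣ l} : ℝ) ≤ x / Z + 1 := by
    intro g hg
    rw [mem_filter] at hg
    have hZg : (Z : ℝ) ≤ g := by exact_mod_cast hg.2.le
    have hZ0 : (0 : ℝ) < Z := by exact_mod_cast hZ
    have h4 := COQ_card x g (by omega)
    have h5 : (x : ℝ) / g ≤ x / Z := div_le_div_of_nonneg_left (by positivity) hZ0 hZg
    linarith
  have h4 := h2.trans (sum_le_card_nsmul _ _ _ h3)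
  rw [nsmul_eq_mul] at h4
  have h5 : (#(D.primeFactors.filter (fun g => Z < g)) : ℝ) ≤ #D.primeFactors := by
    exact_mod_cast card_filter_le _ _
  have h6 := COQ_pf D hD
  have h7 : (0 : ℝ) ≤ x / Z + 1 := by positivity
  have h8 : (#(D.primeFactors.filter (fun g => Z < g)) : ℝ) ≤ 2 * (1 + Real.log D) := by linarith
  exact h4.trans (mul_le_mul_of_nonneg_right h8 h7)

end Pool.Agent.EU
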