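import Pool.Agent.helper94.EU.SpecII

set_option autoImplicit false

open Finset

noncomputable section

namespace Pool.Agent.EU

open Pool.Agent.FI Pool.Agent.FJ

theorem INT : INT_stmt := by
  intro δ τ₁ τ₂ v hδ _ h10 h11 h20 h21
  have hC1 : 1 ≤ Real.cosh δ := Real.one_le_cosh δ
  have hSC : Real.sinh δ < Real.cosh δ := Real.sinh_lt_cosh δ
  have hSC' : -Real.sinh δ < Real.cosh δ := by
    have := Real.sinh_lt_cosh (-δ)
    rwa [Real.sinh_neg, Real.cosh_neg] at this
  have hC0 : 0 < Real.cosh δ := by linarith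
  have hlogC : 0 ≤ Real.log (Real.cosh δ) := Real.log_nonneg hC1
  rcases lt_or_gt_of_ne hδ with hn | hp
  · have hS : Real.sinh δ < 0 := Real.sinh_neg_iff.2 hn
    have hp1 : 0 < Real.cosh δ - τ₁ * Real.sinh δ := by nlinarith
    have hp2 : 0 < Real.cosh δ + τ₂ * Real.sinh δ := by nlinarith
    have elo : loE δ τ₁ τ₂ = Real.log (Real.cosh δ) := by
      unfold loE; rw [if_neg (by linarith)]
    have ehi : hiE δ τ₁ τ₂ = min (Real.log (Real.cosh δ - τ₁ * Real.sinh δ)) (-Real.log (Real.cosh δ + τ₂ * Real.sinh δ)) := by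
      unfold hiE; rw [if_neg (by linarith)]
    rw [elo, ehi]
    constructor
    · rintro ⟨a1, a2, a3, a4⟩
      have b1 : Real.cosh δ < Real.exp v := by
        by_contra hcon
        push Not at hcon
        have := div_nonpos_of_nonneg_of_nonpos (by linarith : 0 ≤ Real.cosh δ - Real.exp v) hS.le
        linarith
      have b2 : Real.exp v ≤ Real.cosh δ - τ₁ * Real.sinh δ := by
        rw [div_le_iff_of_neg hS] at a2
        linarith
      have b4 : Real.cosh δ + τ₂ * Real.sinh δ ≤ Real.exp (-v) := by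
        rw [div_le_iff_of_neg hS] at a4
        linarith
      refine ⟨((Real.log_lt_iff_lt_exp hC0).2 b1).le, le_min ?_ ?_⟩
      · exact (Real.le_log_iff_exp_le hp1).2 b2
      · have := (Real.log_le_iff_le_exp hp2).2 b4
        linarith
    · intro h1 h2
      rw [lt_min_iff] at h2
      obtain ⟨h2a, h2b⟩ := h2
      have c1 : Real.cosh δ < Real.exp v := (Real.log_lt_iff_lt_exp hC0).1 h1
      have c2 : Real.exp v < Real.cosh δ - τ₁ * Real.sinh δ := (Real.lt_log_iff_exp_lt hp1).1 h2a
      have c3 : Real.cosh δ + τ₂ * Real.sinh δ < Real.exp (-v) := (Real.log_lt_iff_lt_exp hp2).1 (by linarith)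
      have c4 : Real.exp (-v) < Real.cosh δ := by
        have : Real.exp (-v) < 1 := Real.exp_lt_one_iff.2 (by linarith)
        linarith
      refine ⟨div_pos_of_neg_of_neg (by linarith) hS, ?_, div_pos_of_neg_of_neg (by linarith) hS, ?_⟩
      · rw [div_le_iff_of_neg hS]; linarith
      · rw [div_le_iff_of_neg hS]; linarith
  · have hS : 0 < Real.sinh δ := Real.sinh_pos_iff.2 hp
    have hp1 : 0 < Real.cosh δ - τ₁ * Real.sinh δ := by nlinarith
    have hp2 : 0 < Real.cosh δ + τ₂ * Real.sinh δ := by nlinarith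
    have elo : loE δ τ₁ τ₂ = max (Real.log (Real.cosh δ - τ₁ * Real.sinh δ)) (-Real.log (Real.cosh δ + τ₂ * Real.sinh δ)) := by
      unfold loE; rw [if_pos hp]
    have ehi : hiE δ τ₁ τ₂ = -Real.log (Real.cosh δ) := by
      unfold hiE; rw [if_pos hp]
    rw [elo, ehi]
    constructor
    · rintro ⟨a1, a2, a3, a4⟩
      have b3 : Real.cosh δ < Real.exp (-v) := by
        by_contra hcon
        push Not at hcon
        have := div_nonpos_of_nonpos_of_nonneg (by linarith : Real.exp (-v) - Real.cosh δ ≤ 0) hS.le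
        linarith
      rw [div_le_iff₀ hS] at a2 a4
      refine ⟨max_le ?_ ?_, ?_⟩
      · exact (Real.log_le_iff_le_exp hp1).2 (by linarith)
      · have := (Real.le_log_iff_exp_le hp2).2 (by linarith : Real.exp (-v) ≤ Real.cosh δ + τ₂ * Real.sinh δ)
        linarith
      · have := (Real.log_lt_iff_lt_exp hC0).2 b3
        linarith
    · intro h1 h2
      rw [max_lt_iff] at h1
      obtain ⟨h1a, h1b⟩ := h1
      have c1 : Real.cosh δ - τ₁ * Real.sinh δ < Real.exp v := (Real.log_lt_iff_lt_exp hp1).1 h1a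
      have c2 : Real.exp (-v) < Real.cosh δ + τ₂ * Real.sinh δ := (Real.lt_log_iff_exp_lt hp2).1 (by linarith)
      have c3 : Real.cosh δ < Real.exp (-v) := (Real.log_lt_iff_lt_exp hC0).1 (by linarith)
      have c4 : Real.exp v < Real.cosh δ := by
        have : Real.exp v < 1 := Real.exp_lt_one_iff.2 (by linarith)
        linarith
      refine ⟨div_pos (by linarith) hS, ?_, div_pos (by linarith) hS, ?_⟩
      · rw [div_le_iff₀ hS]; linarith
      · rw [div_le_iff₀ hS]; linarith

end Pool.Agent.EU
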