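import Pool.Agent.helper94.EU.SpecII

set_option autoImplicit false

open Finset

noncomputable section

namespace Pool.Agent.EU

open Pool.Agent.FI Pool.Agent.FJ

theorem OFF : OFF_stmt := by
  intro Φ hΦ hΦ0 h hh S
  have hint : ∀ k : ℤ, MeasureTheory.Integrable (fun θ : ℝ => Φ (θ + k * h)) := fun k =>
    hΦ.comp_add_right _
  have hg : MeasureTheory.IntegrableOn (fun θ : ℝ => ∑ k ∈ S, Φ (θ + k * h)) (Set.Ioc 0 h) :=
    (MeasureTheory.integrable_finset_sum S fun k _ => hint k).integrableOn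
  have hvol : MeasureTheory.volume (Set.Ioc (0 : ℝ) h) = ENNReal.ofReal h := by
    rw [Real.volume_Ioc, sub_zero]
  obtain ⟨θ, hθ, hle⟩ := MeasureTheory.exists_le_setAverage (μ := MeasureTheory.volume)
    (s := Set.Ioc (0 : ℝ) h) (f := fun θ : ℝ => ∑ k ∈ S, Φ (θ + k * h))
    (by rw [hvol]; simpa using hh) (by rw [hvol]; exact ENNReal.ofReal_ne_top) hg
  refine ⟨θ, hθ.1.le, hθ.2, ?_⟩
  rw [MeasureTheory.setAverage_eq] at hle
  have hreal : MeasureTheory.volume.real (Set.Ioc (0 : ℝ) h) = h := by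
    rw [MeasureTheory.Measure.real, hvol, ENNReal.toReal_ofReal hh.le]
  rw [hreal, smul_eq_mul] at hle
  have h1 : h * ∑ k ∈ S, Φ (θ + k * h) ≤ ∫ x in Set.Ioc (0 : ℝ) h, ∑ k ∈ S, Φ (x + k * h) := by
    have h2 := mul_le_mul_of_nonneg_left hle hh.le
    rw [← mul_assoc, mul_inv_cancel₀ hh.ne', one_mul] at h2
    exact h2
  refine h1.trans ?_
  rw [MeasureTheory.integral_finset_sum S fun k _ => (hint k).integrableOn]
  have h3 : ∀ k ∈ S, ∫ x in Set.Ioc (0 : ℝ) h, Φ (x + k * h) = ∫ x in Set.Ioc ((k : ℝ) * h) ((k + 1) * h), Φ x := by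
    intro k _
    rw [← intervalIntegral.integral_of_le hh.le, intervalIntegral.integral_comp_add_right,
      intervalIntegral.integral_of_le (by linarith)]
    rw [zero_add, show h + (k : ℝ) * h = (k + 1) * h by ring]
  rw [sum_congr rfl h3]
  rw [← MeasureTheory.integral_biUnion_finset S (fun k _ => measurableSet_Ioc) ?_ (fun k _ => hΦ.integrableOn)]
  · exact MeasureTheory.setIntegral_le_integral hΦ (Filter.Eventually.of_forall hΦ0)
  · intro a _ b _ hab
    rw [Function.onFun, Set.disjoint_left]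
    intro x hx hx'
    rcases lt_or_gt_of_ne hab with hlt | hlt
    · have : (a : ℝ) + 1 ≤ b := by exact_mod_cast hlt
      have : ((a : ℝ) + 1) * h ≤ b * h := mul_le_mul_of_nonneg_right this hh.le
      linarith [hx.2, hx'.1]
    · have : (b : ℝ) + 1 ≤ a := by exact_mod_cast hlt
      have : ((b : ℝ) + 1) * h ≤ a * h := mul_le_mul_of_nonneg_right this hh.le
      linarith [hx'.2, hx.1]

end Pool.Agent.EU
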