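import Pool.Agent.helper94.EU.SpecII

set_option autoImplicit false

open Finset

noncomputable section

namespace Pool.Agent.EU

open Pool.Agent.FI Pool.Agent.FJ

theorem OMP_two (t : ℤ) (ht : t % 2 = 1) : IsCoprime t 2 := by
  refine ⟨1, -(t / 2), ?_⟩
  omega

theorem OMP : OMP_stmt := by
  intro om hom e he r z z' w w' hz hz' hw hw' cz cz' cw cw' hd hd' hr hr' h1 h2 h3 h4
  have A := (hom e he z z' hz hz' cz cz' hd).2
  have B := (hom e he w w' hw hw' cw cw' hd').2
  have a1 := hr.trans ((A z.1 z'.1).1 ⟨0, 1, by ring, by ring⟩)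
  have a2 := hr.trans ((A (e * z.2) (e * z'.2)).1 ⟨1, 0, by ring, by ring⟩)
  have b1 := hr'.trans ((B w.1 w'.1).1 ⟨0, 1, by ring, by ring⟩)
  have b2 := hr'.trans ((B (e * w.2) (e * w'.2)).1 ⟨1, 0, by ring, by ring⟩)
  have c1 : (r : ℤ) ∣ (om e z z' - om e w w') * z.1 := by
    have : (om e z z' - om e w w') * z.1 =
        (z'.1 - w'.1) - (z'.1 - om e z z' * z.1) + (w'.1 - om e w w' * w.1) - om e w w' * (z.1 - w.1) := by ring
    rw [this]
    exact dvd_sub (dvd_add (dvd_sub h3 a1) b1) (Dvd.dvd.mul_left h1 _)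
  have c2 : (r : ℤ) ∣ (om e z z' - om e w w') * (e * z.2) := by
    have : (om e z z' - om e w w') * (e * z.2) =
        e * (z'.2 - w'.2) - (e * z'.2 - om e z z' * (e * z.2)) + (e * w'.2 - om e w w' * (e * w.2))
          - (om e w w' * e) * (z.2 - w.2) := by ring
    rw [this]
    exact dvd_sub (dvd_add (dvd_sub (Dvd.dvd.mul_left h4 _) a2) b2) (Dvd.dvd.mul_left h2 _)
  have hc : IsCoprime z.1 (e * z.2) := by
    refine IsCoprime.mul_right ?_ cz
    rcases he with rfl | rfl
    · exact isCoprime_one_right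
    · exact OMP_two _ hz
  obtain ⟨a, b, hab⟩ := hc
  have : om e z z' - om e w w' = a * ((om e z z' - om e w w') * z.1) + b * ((om e z z' - om e w w') * (e * z.2)) := by
    linear_combination (-(om e z z' - om e w w')) * hab
  rw [this]
  exact dvd_add (Dvd.dvd.mul_left c1 _) (Dvd.dvd.mul_left c2 _)

end Pool.Agent.EU
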