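import Pool.Agent.helper94.EU.SpecII

set_option autoImplicit false

open Finset

noncomputable section

namespace Pool.Agent.EU

open Pool.Agent.FI Pool.Agent.FJ

theorem QQL_cnt (x : ℕ) (S : Finset ℤ) (ρ s : ℝ) (hx : 1 ≤ x) (hS : S ⊆ Ioc (x : ℤ) (2 * x)) (hρ : 0 < ρ) :
    (#(S.filter fun l : ℤ => s < Real.log l ∧ Real.log l ≤ s + ρ) : ℝ) ≤ 2 * x * ρ + 1 := by
  classical
  set T : Finset ℤ := (S.filter fun l : ℤ => s < Real.log l ∧ Real.log l ≤ s + ρ) with hT
  rcases T.eq_empty_or_nonempty with h | h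
  · rw [h, card_empty, Nat.cast_zero]
    positivity
  have ha := T.min'_mem h
  have hb := T.max'_mem h
  set a := T.min' h with hadef
  set b := T.max' h with hbdef
  have hsub : T ⊆ Icc a b := fun l hl => mem_Icc.2 ⟨T.min'_le l hl, T.le_max' l hl⟩
  have hab : a ≤ b := T.min'_le b hb
  have hcard := card_le_card hsub
  rw [Int.card_Icc] at hcard
  have h1 : (#T : ℤ) ≤ b + 1 - a := by
    have : ((b + 1 - a).toNat : ℤ) = b + 1 - a := Int.toNat_of_nonneg (by omega)
    rw [← this]
    exact_mod_cast hcard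
  have h2 : (#T : ℝ) ≤ b + 1 - a := by exact_mod_cast h1
  rw [hT, mem_filter] at ha hb
  obtain ⟨haS, ha1, ha2⟩ := ha
  obtain ⟨hbS, hb1, hb2⟩ := hb
  have haS' := mem_Ioc.1 (hS haS)
  have hbS' := mem_Ioc.1 (hS hbS)
  have ha0 : (0 : ℝ) < a := by
    have : (0 : ℤ) < a := by omega
    exact_mod_cast this
  have hb0 : (0 : ℝ) < b := by
    have : (0 : ℤ) < b := by omega
    exact_mod_cast this
  have hbx : (b : ℝ) ≤ 2 * x := by exact_mod_cast hbS'.2
  have h3 : Real.log b - Real.log a < ρ := by linarith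
  have h4 : 1 - ρ ≤ (a : ℝ) / b := by
    have h5 : Real.exp (-(Real.log b - Real.log a)) = a / b := by
      rw [show -(Real.log b - Real.log a) = Real.log a - Real.log b by ring, ← Real.log_div ha0.ne' hb0.ne',
        Real.exp_log (by positivity)]
    rw [← h5]
    have := Real.add_one_le_exp (-(Real.log b - Real.log a))
    linarith
  have h5 : (b : ℝ) - a ≤ b * ρ := by
    have h6 := mul_le_mul_of_nonneg_left h4 hb0.le
    rw [mul_div_cancel₀ _ hb0.ne'] at h6
    linarith
  have h6 : (b : ℝ) * ρ ≤ 2 * x * ρ := mul_le_mul_of_nonneg_right hbx hρ.le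
  linarith

theorem QQL : QQL_stmt := by
  classical
  intro x S f M ρ hx hS hf hρ
  have hM : 0 ≤ M := (norm_nonneg _).trans (hf 0)
  have hx0 : (0 : ℝ) < x := by exact_mod_cast hx
  have hpt : ∀ s : ℝ, ‖∑ l ∈ S, f l * (if s < Real.log l ∧ Real.log l ≤ s + ρ then 1 else 0)‖ ^ 2 ≤
      (Set.Icc (Real.log x - ρ) (Real.log x + 1)).indicator (fun _ => M ^ 2 * (2 * x * ρ + 1) ^ 2) s := by
    intro s
    have h1 : ‖∑ l ∈ S, f l * (if s < Real.log l ∧ Real.log l ≤ s + ρ then 1 else 0)‖ ≤
        M * #(S.filter fun l : ℤ => s < Real.log l ∧ Real.log l ≤ s + ρ) := by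
      refine (norm_sum_le _ _).trans ?_
      have : ∀ l ∈ S, ‖f l * (if s < Real.log l ∧ Real.log l ≤ s + ρ then 1 else 0)‖ ≤
          M * (if s < Real.log l ∧ Real.log l ≤ s + ρ then 1 else 0) := by
        intro l _
        split_ifs
        · rw [mul_one, mul_one]; exact hf l
        · simp
      refine (sum_le_sum this).trans ?_
      rw [← mul_sum, sum_boole]
    by_cases hs : s ∈ Set.Icc (Real.log x - ρ) (Real.log x + 1)
    · rw [Set.indicator_of_mem hs]
      have h2 := QQL_cnt x S ρ s hx hS hρ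
      have h3 : ‖∑ l ∈ S, f l * (if s < Real.log l ∧ Real.log l ≤ s + ρ then 1 else 0)‖ ≤ M * (2 * x * ρ + 1) :=
        h1.trans (mul_le_mul_of_nonneg_left h2 hM)
      rw [← mul_pow]
      exact pow_le_pow_left₀ (norm_nonneg _) h3 2
    · rw [Set.indicator_of_notMem hs]
      have h0 : ∑ l ∈ S, f l * (if s < Real.log l ∧ Real.log l ≤ s + ρ then (1 : ℂ) else 0) = 0 := by
        refine sum_eq_zero fun l hl => ?_
        rw [if_neg, mul_zero]
        rintro ⟨h2, h3⟩
        apply hs
        have hl' := mem_Ioc.1 (hS hl)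
        have hxl : (x : ℝ) ≤ l := by exact_mod_cast hl'.1.le
        have hlx : (l : ℝ) ≤ 2 * x := by exact_mod_cast hl'.2
        have h4 : Real.log x ≤ Real.log l := Real.log_le_log hx0 hxl
        have h5 : Real.log l ≤ Real.log (2 * x) := Real.log_le_log (by linarith) hlx
        rw [Real.log_mul (by norm_num) hx0.ne'] at h5
        have h6 := Real.log_two_lt_d9
        constructor <;> linarith
      rw [h0, norm_zero]
      norm_num
  have hint : MeasureTheory.Integrable ((Set.Icc (Real.log x - ρ) (Real.log x + 1)).indicator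
      (fun _ : ℝ => M ^ 2 * (2 * x * ρ + 1) ^ 2)) := by
    rw [MeasureTheory.integrable_indicator_iff measurableSet_Icc]
    exact MeasureTheory.integrableOn_const (by rw [Real.volume_Icc]; exact ENNReal.ofReal_ne_top)
  refine (MeasureTheory.integral_mono_of_nonneg (Filter.Eventually.of_forall fun s => sq_nonneg _) hint
    (Filter.Eventually.of_forall hpt)).trans ?_
  rw [MeasureTheory.integral_indicator measurableSet_Icc, MeasureTheory.setIntegral_const, smul_eq_mul,
    MeasureTheory.Measure.real, Real.volume_Icc, ENNReal.toReal_ofReal (by linarith)]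
  have : Real.log x + 1 - (Real.log x - ρ) = 1 + ρ := by ring
  rw [this, mul_comm]

end Pool.Agent.EU
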