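import Pool.Agent.helper94.EU.SpecII

set_option autoImplicit false

open Finset

noncomputable section

namespace Pool.Agent.EU

open Pool.Agent.FI Pool.Agent.FJ

/-- indicator of `s < u ≤ s + ρ` as a function of `s` -/
def TEN_i (ρ u s : ℝ) : ℝ := if s < u ∧ u ≤ s + ρ then 1 else 0

theorem TEN_i_eq (ρ u : ℝ) : TEN_i ρ u = (Set.Ico (u - ρ) u).indicator (fun _ => 1) := by
  funext s
  unfold TEN_i
  rw [Set.indicator_apply]
  refine if_congr ?_ rfl rfl
  rw [Set.mem_Ico]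
  constructor
  · rintro ⟨h1, h2⟩
    constructor <;> linarith
  · rintro ⟨h1, h2⟩
    constructor <;> linarith

theorem TEN_int (ρ u : ℝ) : MeasureTheory.Integrable (TEN_i ρ u) := by
  rw [TEN_i_eq, MeasureTheory.integrable_indicator_iff measurableSet_Ico]
  exact MeasureTheory.integrableOn_const (by rw [Real.volume_Ico]; exact ENNReal.ofReal_ne_top)

theorem TEN_prod (ρ u w : ℝ) : (fun s => TEN_i ρ u s * TEN_i ρ w s) =
    (Set.Ico (max (u - ρ) (w - ρ)) (min u w)).indicator (fun _ => 1) := by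
  funext s
  rw [TEN_i_eq, TEN_i_eq, ← Set.inter_indicator_mul, Set.Ico_inter_Ico]
  simp

theorem TEN_pint (ρ u w : ℝ) : MeasureTheory.Integrable (fun s => TEN_i ρ u s * TEN_i ρ w s) := by
  rw [TEN_prod, MeasureTheory.integrable_indicator_iff measurableSet_Ico]
  exact MeasureTheory.integrableOn_const (by rw [Real.volume_Ico]; exact ENNReal.ofReal_ne_top)

theorem TEN_val (ρ u w : ℝ) (hρ : 0 < ρ) : ∫ s : ℝ, TEN_i ρ u s * TEN_i ρ w s = ρ * tnt ρ (w - u) := by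
  rw [TEN_prod, MeasureTheory.integral_indicator measurableSet_Ico, MeasureTheory.setIntegral_const,
    MeasureTheory.Measure.real, Real.volume_Ico, ENNReal.toReal_ofReal', smul_eq_mul, mul_one]
  unfold tnt
  rw [mul_max_of_nonneg _ _ hρ.le, mul_zero, mul_sub, mul_one, mul_div_cancel₀ _ hρ.ne', max_comm]
  congr 1
  rcases le_total u w with h | h
  · rw [abs_of_nonneg (by linarith), min_eq_left h, max_eq_right (by linarith)]
    ring
  · rw [abs_of_nonpos (by linarith), min_eq_right h, max_eq_left (by linarith)]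
    ring

theorem TEN : TEN_stmt := by
  classical
  intro ι κ S S' a a' u w ρ τ hρ
  have hcast : ∀ v s : ℝ, (if s < v ∧ v ≤ s + ρ then (1 : ℂ) else 0) = ((TEN_i ρ v s : ℝ) : ℂ) := by
    intro v s
    unfold TEN_i
    split_ifs <;> simp
  set P : ℝ → ℂ := fun s => ∑ i ∈ S, a i * ((TEN_i ρ (u i) s : ℝ) : ℂ) with hP
  set Q : ℝ → ℂ := fun s => ∑ j ∈ S', a' j * ((TEN_i ρ (w j) s : ℝ) : ℂ) with hQ
  have eP : (fun s : ℝ => ‖∑ i ∈ S, a i * (if s < u i ∧ u i ≤ s + ρ then 1 else 0)‖ ^ 2) = fun s => ‖P s‖ ^ 2 := by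
    funext s
    rw [hP]
    simp only [hcast]
  have eQ : (fun s : ℝ => ‖∑ j ∈ S', a' j * (if s < w j ∧ w j ≤ s + ρ then 1 else 0)‖ ^ 2) = fun s => ‖Q s‖ ^ 2 := by
    funext s
    rw [hQ]
    simp only [hcast]
  rw [eP, eQ]
  -- shift
  have hshift : ∀ v s : ℝ, TEN_i ρ v (s - τ) = TEN_i ρ (v + τ) s := by
    intro v s
    unfold TEN_i
    refine if_congr ?_ rfl rfl
    constructor
    · rintro ⟨h1, h2⟩
      constructor <;> linarith
    · rintro ⟨h1, h2⟩
      constructor <;> linarith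
  have hPQ : ∀ s : ℝ, P (s - τ) * Q s = ∑ i ∈ S, ∑ j ∈ S', a i * a' j * ((TEN_i ρ (u i + τ) s * TEN_i ρ (w j) s : ℝ) : ℂ) := by
    intro s
    rw [hP, hQ]
    simp only
    rw [sum_mul_sum]
    refine sum_congr rfl fun i _ => sum_congr rfl fun j _ => ?_
    rw [hshift]
    push_cast
    ring
  have hint1 : ∀ i j, MeasureTheory.Integrable
      (fun s : ℝ => a i * a' j * ((TEN_i ρ (u i + τ) s * TEN_i ρ (w j) s : ℝ) : ℂ)) := fun i j =>
    ((TEN_pint ρ (u i + τ) (w j)).ofReal).const_mul _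
  have hval : ∫ s : ℝ, P (s - τ) * Q s = ρ * ∑ i ∈ S, ∑ j ∈ S', a i * a' j * (tnt ρ (w j - u i - τ) : ℂ) := by
    simp_rw [hPQ]
    rw [MeasureTheory.integral_finsetSum S (fun i _ => MeasureTheory.integrable_finsetSum S' fun j _ => hint1 i j), mul_sum]
    refine sum_congr rfl fun i _ => ?_
    rw [MeasureTheory.integral_finsetSum S' (fun j _ => hint1 i j), mul_sum]
    refine sum_congr rfl fun j _ => ?_
    rw [MeasureTheory.integral_const_mul]
    have h1 : ∫ s : ℝ, ((TEN_i ρ (u i + τ) s * TEN_i ρ (w j) s : ℝ) : ℂ) = ((ρ * tnt ρ (w j - u i - τ) : ℝ) : ℂ) := by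
      have h0 := TEN_val ρ (u i + τ) (w j) hρ
      rw [show w j - (u i + τ) = w j - u i - τ by ring] at h0
      rw [← h0]
      exact integral_ofReal
    rw [h1]
    push_cast
    ring
  -- square integrability
  have hbound : ∀ v s : ℝ, |TEN_i ρ v s| ≤ 1 := by
    intro v s
    unfold TEN_i
    split_ifs <;> simp
  have hmeas : ∀ v : ℝ, MeasureTheory.AEStronglyMeasurable (fun s : ℝ => ((TEN_i ρ v s : ℝ) : ℂ)) := fun v =>
    ((TEN_int ρ v).ofReal).aestronglyMeasurable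
  have hsq : ∀ (n : ℕ) (J : Type) (T : Finset J) (b : J → ℂ) (v : J → ℝ),
      MeasureTheory.Integrable (fun s : ℝ => ‖∑ i ∈ T, b i * ((TEN_i ρ (v i) s : ℝ) : ℂ)‖ ^ 2) := by
    intro _ J T b v
    set R : ℝ → ℂ := fun s => ∑ i ∈ T, b i * ((TEN_i ρ (v i) s : ℝ) : ℂ) with hR
    have hRint : MeasureTheory.Integrable R :=
      MeasureTheory.integrable_finsetSum T fun i _ => ((TEN_int ρ (v i)).ofReal).const_mul _
    have hRb : ∀ s, ‖R s‖ ≤ ∑ i ∈ T, ‖b i‖ := by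
      intro s
      refine (norm_sum_le _ _).trans (sum_le_sum fun i _ => ?_)
      rw [norm_mul, Complex.norm_real, Real.norm_eq_abs]
      exact mul_le_of_le_one_right (norm_nonneg _) (hbound _ _)
    have h1 : (fun s => ‖R s‖ ^ 2) = fun s => ‖R s‖ * ‖R s‖ := by
      funext s
      ring
    rw [h1]
    exact hRint.norm.bdd_mul hRint.norm.aestronglyMeasurable
      (Filter.Eventually.of_forall fun s => by rw [Real.norm_eq_abs, abs_of_nonneg (norm_nonneg _)]; exact hRb s)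
  have hP2 : MeasureTheory.Integrable (fun s => ‖P s‖ ^ 2) := hsq 0 ι S a u
  have hQ2 : MeasureTheory.Integrable (fun s => ‖Q s‖ ^ 2) := hsq 0 κ S' a' w
  have hPs : MeasureTheory.Integrable (fun s => ‖P (s - τ)‖ ^ 2) := hP2.comp_sub_right τ
  have hPsv : ∫ s : ℝ, ‖P (s - τ)‖ ^ 2 = ∫ s : ℝ, ‖P s‖ ^ 2 :=
    MeasureTheory.integral_sub_right_eq_self (fun s => ‖P s‖ ^ 2) τ
  have h1 : ‖∫ s : ℝ, P (s - τ) * Q s‖ ≤ ∫ s : ℝ, (1 / 2) * (‖P (s - τ)‖ ^ 2 + ‖Q s‖ ^ 2) := by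
    refine MeasureTheory.norm_integral_le_of_norm_le ((hPs.add hQ2).const_mul _) (Filter.Eventually.of_forall fun s => ?_)
    rw [norm_mul]
    show _ ≤ (1 / 2) * (‖P (s - τ)‖ ^ 2 + ‖Q s‖ ^ 2)
    nlinarith [sq_nonneg (‖P (s - τ)‖ - ‖Q s‖)]
  rw [MeasureTheory.integral_const_mul, MeasureTheory.integral_add hPs hQ2, hPsv, hval, norm_mul,
    Complex.norm_real, Real.norm_eq_abs, abs_of_pos hρ] at h1
  have h2 : ‖∑ i ∈ S, ∑ j ∈ S', a i * a' j * (tnt ρ (w j - u i - τ) : ℂ)‖ ≤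
      ρ⁻¹ * (1 / 2 * (∫ (a : ℝ), ‖P a‖ ^ 2 + ‖Q a‖ ^ 2)) := by
    rw [MeasureTheory.integral_add hP2 hQ2, inv_mul_eq_div, le_div_iff₀ hρ, mul_comm]
    exact h1
  rw [MeasureTheory.integral_add hP2 hQ2] at h2
  refine h2.trans (le_of_eq ?_)
  field_simp

end Pool.Agent.EU
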