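import Pool.Agent.helper94.EU.SpecII

set_option autoImplicit false

open Finset

noncomputable section

namespace Pool.Agent.EU

open Pool.Agent.FI Pool.Agent.FJ

open MeasureTheory in
theorem TLM_low (T₁ t : ℝ) (hT : 1 ≤ T₁) (ht : T₁ < |t|) :
    1 / T₁ / 4 ≤ ∫ ρ in (1 / T₁)..(2 * (1 / T₁)), Real.sin (Real.pi * ρ * t) ^ 2 := by
  have hT0 : 0 < T₁ := by linarith
  have ht0 : t ≠ 0 := by
    intro h
    rw [h, abs_zero] at ht
    linarith
  have hpi := Real.pi_pos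
  have hpt : Real.pi * t ≠ 0 := mul_ne_zero hpi.ne' ht0
  have e1 : (∫ ρ in (1 / T₁)..(2 * (1 / T₁)), Real.sin (Real.pi * ρ * t) ^ 2) =
      ∫ ρ in (1 / T₁)..(2 * (1 / T₁)), (fun y => Real.sin y ^ 2) ((Real.pi * t) * ρ) := by
    refine intervalIntegral.integral_congr fun ρ _ => ?_
    show Real.sin (Real.pi * ρ * t) ^ 2 = Real.sin ((Real.pi * t) * ρ) ^ 2
    rw [show Real.pi * ρ * t = (Real.pi * t) * ρ by ring]
  have e5 := intervalIntegral.integral_comp_mul_left (a := 1 / T₁) (b := 2 * (1 / T₁)) (fun y => Real.sin y ^ 2) hpt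
  rw [integral_sin_sq, smul_eq_mul] at e5
  rw [e1.trans e5]
  set A := Real.pi * t * (1 / T₁) with hA
  set B := Real.pi * t * (2 * (1 / T₁)) with hB
  have e2 : (Real.pi * t)⁻¹ * ((Real.sin A * Real.cos A - Real.sin B * Real.cos B + B - A) / 2) =
      1 / T₁ / 2 + (Real.sin A * Real.cos A - Real.sin B * Real.cos B) / (2 * (Real.pi * t)) := by
    have e3 : B - A = (Real.pi * t) * (1 / T₁) := by rw [hA, hB]; ring
    have e4 : Real.sin A * Real.cos A - Real.sin B * Real.cos B + B - A =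
        (Real.sin A * Real.cos A - Real.sin B * Real.cos B) + (Real.pi * t) * (1 / T₁) := by
      rw [← e3]; ring
    rw [e4]
    field_simp
    ring
  rw [e2]
  have hsc : ∀ y : ℝ, |Real.sin y * Real.cos y| ≤ 1 / 2 := by
    intro y
    have h1 := Real.sin_sq_add_cos_sq y
    rw [abs_le]
    constructor
    · nlinarith [sq_nonneg (Real.sin y + Real.cos y)]
    · nlinarith [sq_nonneg (Real.sin y - Real.cos y)]
  have h3 : |Real.sin A * Real.cos A - Real.sin B * Real.cos B| ≤ 1 := by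
    refine (abs_sub _ _).trans ?_
    linarith [hsc A, hsc B]
  have h4 : |(Real.sin A * Real.cos A - Real.sin B * Real.cos B) / (2 * (Real.pi * t))| ≤ 1 / T₁ / 4 := by
    rw [abs_div, abs_mul, abs_mul, abs_of_pos hpi, abs_of_pos (by norm_num : (0 : ℝ) < 2)]
    have h5 : 4 * T₁ ≤ 2 * (Real.pi * |t|) := by
      have := Real.pi_gt_three
      nlinarith
    calc |Real.sin A * Real.cos A - Real.sin B * Real.cos B| / (2 * (Real.pi * |t|)) ≤ 1 / (4 * T₁) :=
          div_le_div₀ (by norm_num) h3 (by linarith) h5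
      _ = 1 / T₁ / 4 := by field_simp
  have h5 := (abs_le.1 h4).1
  have h6 : 1 / T₁ / 2 = 1 / T₁ / 4 + 1 / T₁ / 4 := by ring
  linarith

theorem TLM (hPLS : PLS_stmt) (hQQL : QQL_stmt) : TLM_stmt := by
  classical
  refine ⟨4 * Real.pi ^ 2 * (16 * 3), by positivity, ?_⟩
  intro x S f M T₁ hx hS hf hT
  have hM : 0 ≤ M := (norm_nonneg _).trans (hf 0)
  have hT0 : 0 < T₁ := by linarith
  have hx0 : (0 : ℝ) < x := by exact_mod_cast hx
  set F : ℝ → ℂ := fun t => ∑ l ∈ S, f l * Complex.exp (2 * Real.pi * t * Real.log l * Complex.I) with hF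
  have hFc : Continuous F := by
    rw [hF]
    fun_prop
  set G : ℝ → ℝ := fun t => ‖F t‖ ^ 2 with hG
  have hGc : Continuous G := by
    rw [hG]
    fun_prop
  have hG0 : ∀ t, 0 ≤ G t := fun t => sq_nonneg _
  set K : ℝ → ℝ → ℝ := fun ρ t => (Real.sin (Real.pi * ρ * t) / (Real.pi * t)) ^ 2 * G t with hK
  have hK0 : ∀ ρ t, 0 ≤ K ρ t := fun ρ t => mul_nonneg (sq_nonneg _) (hG0 t)
  have hKm : Measurable (fun p : ℝ × ℝ => K p.1 p.2) := by
    rw [hK]
    have : Measurable G := hGc.measurable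
    fun_prop
  set B : ℝ := M ^ 2 * (2 * x * (2 * (1 / T₁)) + 1) ^ 2 * (1 + 2 * (1 / T₁)) with hB
  have hB0 : 0 ≤ B := by positivity
  have hpls : ∀ ρ ∈ Set.Ioc (1 / T₁) (2 * (1 / T₁)), MeasureTheory.Integrable (K ρ) ∧ ∫ t, K ρ t ≤ B := by
    intro ρ hρ
    have hρ0 : 0 < ρ := lt_trans (by positivity) hρ.1
    obtain ⟨h1, h2⟩ := hPLS ℤ S f (fun l => Real.log l) ρ hρ0
    refine ⟨h1, ?_⟩
    have h3 : ∫ t, K ρ t = ∫ s : ℝ, ‖∑ l ∈ S, f l * (if s < Real.log l ∧ Real.log l ≤ s + ρ then 1 else 0)‖ ^ 2 := h2.symm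
    rw [h3]
    refine (hQQL x S f M ρ hx hS hf hρ0).trans ?_
    rw [hB]
    have h4 : 2 * (x : ℝ) * ρ + 1 ≤ 2 * x * (2 * (1 / T₁)) + 1 := by
      have := mul_le_mul_of_nonneg_left hρ.2 (by positivity : (0 : ℝ) ≤ 2 * x)
      linarith
    have h5 : (2 * (x : ℝ) * ρ + 1) ^ 2 ≤ (2 * x * (2 * (1 / T₁)) + 1) ^ 2 :=
      pow_le_pow_left₀ (by positivity) h4 2
    have h6 : 1 + ρ ≤ 1 + 2 * (1 / T₁) := by linarith [hρ.2]
    exact mul_le_mul (mul_le_mul_of_nonneg_left h5 (sq_nonneg _)) h6 (by positivity) (by positivity)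
  -- pointwise
  have hpt : ∀ t ∈ {t : ℝ | T₁ < |t|}, ENNReal.ofReal (1 / t ^ 2 * G t) ≤
      ENNReal.ofReal (4 * Real.pi ^ 2 * T₁) * ∫⁻ ρ in Set.Ioc (1 / T₁) (2 * (1 / T₁)), ENNReal.ofReal (K ρ t) := by
    intro t ht
    have ht' : T₁ < |t| := ht
    have ht0 : t ≠ 0 := by
      intro h
      rw [h, abs_zero] at ht'
      linarith
    have hcont : Continuous (fun ρ : ℝ => K ρ t) := by
      rw [hK]
      fun_prop
    have hle : 1 / T₁ ≤ 2 * (1 / T₁) := by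
      have : 0 < 1 / T₁ := by positivity
      linarith
    rw [← MeasureTheory.ofReal_integral_eq_lintegral_ofReal
      (hcont.integrableOn_Ioc) (Filter.Eventually.of_forall fun ρ => hK0 ρ t),
      ← ENNReal.ofReal_mul (by positivity)]
    refine ENNReal.ofReal_le_ofReal ?_
    rw [← intervalIntegral.integral_of_le hle]
    have e1 : (∫ ρ in (1 / T₁)..(2 * (1 / T₁)), K ρ t) =
        (1 / (Real.pi * t) ^ 2 * G t) * ∫ ρ in (1 / T₁)..(2 * (1 / T₁)), Real.sin (Real.pi * ρ * t) ^ 2 := by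
      rw [← intervalIntegral.integral_const_mul]
      refine intervalIntegral.integral_congr fun ρ _ => ?_
      show (Real.sin (Real.pi * ρ * t) / (Real.pi * t)) ^ 2 * G t = 1 / (Real.pi * t) ^ 2 * G t * Real.sin (Real.pi * ρ * t) ^ 2
      rw [div_pow]
      ring
    rw [e1]
    have h1 := TLM_low T₁ t hT ht'
    have h2 : 0 ≤ 1 / (Real.pi * t) ^ 2 * G t := mul_nonneg (by positivity) (hG0 t)
    have h3 := mul_le_mul_of_nonneg_left h1 h2
    have h4 := mul_le_mul_of_nonneg_left h3 (by positivity : 0 ≤ 4 * Real.pi ^ 2 * T₁)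
    refine le_trans (le_of_eq ?_) h4
    have hpi := Real.pi_ne_zero
    field_simp
  have hmeasA : MeasurableSet {t : ℝ | T₁ < |t|} := (isOpen_lt continuous_const continuous_abs).measurableSet
  have hmain : ∫⁻ t in {t : ℝ | T₁ < |t|}, ENNReal.ofReal (1 / t ^ 2 * G t) ≤ ENNReal.ofReal (4 * Real.pi ^ 2 * B) := by
    calc ∫⁻ t in {t : ℝ | T₁ < |t|}, ENNReal.ofReal (1 / t ^ 2 * G t)
        ≤ ∫⁻ t in {t : ℝ | T₁ < |t|}, ENNReal.ofReal (4 * Real.pi ^ 2 * T₁) *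
          ∫⁻ ρ in Set.Ioc (1 / T₁) (2 * (1 / T₁)), ENNReal.ofReal (K ρ t) :=
          MeasureTheory.setLIntegral_mono' hmeasA hpt
      _ ≤ ∫⁻ t, ENNReal.ofReal (4 * Real.pi ^ 2 * T₁) *
          ∫⁻ ρ in Set.Ioc (1 / T₁) (2 * (1 / T₁)), ENNReal.ofReal (K ρ t) :=
          MeasureTheory.setLIntegral_le_lintegral _ _
      _ = ENNReal.ofReal (4 * Real.pi ^ 2 * T₁) * ∫⁻ t,
          ∫⁻ ρ in Set.Ioc (1 / T₁) (2 * (1 / T₁)), ENNReal.ofReal (K ρ t) := by
          rw [MeasureTheory.lintegral_const_mul']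
          exact ENNReal.ofReal_ne_top
      _ = ENNReal.ofReal (4 * Real.pi ^ 2 * T₁) *
          ∫⁻ ρ in Set.Ioc (1 / T₁) (2 * (1 / T₁)), ∫⁻ t, ENNReal.ofReal (K ρ t) := by
          congr 1
          rw [MeasureTheory.lintegral_lintegral_swap]
          exact ((hKm.comp measurable_swap).ennreal_ofReal).aemeasurable
      _ ≤ ENNReal.ofReal (4 * Real.pi ^ 2 * T₁) *
          ∫⁻ _ρ in Set.Ioc (1 / T₁) (2 * (1 / T₁)), ENNReal.ofReal B := by
          gcongr ENNReal.ofReal (4 * Real.pi ^ 2 * T₁) * ?_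
          refine MeasureTheory.setLIntegral_mono' measurableSet_Ioc fun ρ hρ => ?_
          obtain ⟨h1, h2⟩ := hpls ρ hρ
          rw [← MeasureTheory.ofReal_integral_eq_lintegral_ofReal h1 (Filter.Eventually.of_forall fun t => hK0 ρ t)]
          exact ENNReal.ofReal_le_ofReal h2
      _ = ENNReal.ofReal (4 * Real.pi ^ 2 * B) := by
          rw [MeasureTheory.setLIntegral_const, Real.volume_Ioc, ← ENNReal.ofReal_mul hB0, ← ENNReal.ofReal_mul (by positivity)]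
          congr 1
          field_simp
          ring
  have hfin : ∫ t in {t : ℝ | T₁ < |t|}, 1 / t ^ 2 * G t ≤ 4 * Real.pi ^ 2 * B := by
    rw [MeasureTheory.integral_eq_lintegral_of_nonneg_ae
      (Filter.Eventually.of_forall fun t => mul_nonneg (by positivity) (hG0 t)) ?_]
    · refine (ENNReal.toReal_mono ENNReal.ofReal_ne_top hmain).trans ?_
      rw [ENNReal.toReal_ofReal (by positivity)]
    · have : Measurable G := hGc.measurable
      exact Measurable.aestronglyMeasurable (by fun_prop)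
  have hgoal : ∫ t in {t : ℝ | T₁ < |t|}, 1 / t ^ 2 * ‖∑ l ∈ S, f l * Complex.exp (2 * Real.pi * t * Real.log l * Complex.I)‖ ^ 2 =
      ∫ t in {t : ℝ | T₁ < |t|}, 1 / t ^ 2 * G t := rfl
  rw [hgoal]
  refine hfin.trans ?_
  have h1 : B ≤ 16 * 3 * (M ^ 2 * (x / T₁ + 1) ^ 2) := by
    rw [hB]
    have h2 : 2 * (x : ℝ) * (2 * (1 / T₁)) + 1 ≤ 4 * (x / T₁ + 1) := by
      have : 2 * (x : ℝ) * (2 * (1 / T₁)) = 4 * (x / T₁) := by ring
      rw [this]
      linarith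
    have h3 : (2 * (x : ℝ) * (2 * (1 / T₁)) + 1) ^ 2 ≤ (4 * (x / T₁ + 1)) ^ 2 := pow_le_pow_left₀ (by positivity) h2 2
    have h4 : 1 + 2 * (1 / T₁) ≤ 3 := by
      have : 1 / T₁ ≤ 1 := by rw [div_le_one hT0]; exact hT
      linarith
    calc M ^ 2 * (2 * x * (2 * (1 / T₁)) + 1) ^ 2 * (1 + 2 * (1 / T₁))
        ≤ M ^ 2 * (4 * (x / T₁ + 1)) ^ 2 * 3 :=
          mul_le_mul (mul_le_mul_of_nonneg_left h3 (sq_nonneg _)) h4 (by positivity) (by positivity)
      _ = 16 * 3 * (M ^ 2 * (x / T₁ + 1) ^ 2) := by ring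
  have h2 := mul_le_mul_of_nonneg_left h1 (by positivity : 0 ≤ 4 * Real.pi ^ 2)
  refine h2.trans (le_of_eq ?_)
  ring

end Pool.Agent.EU
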