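import Pool.Agent.helper94.EU.SpecII

set_option autoImplicit false

open Finset

noncomputable section

namespace Pool.Agent.EU

open Pool.Agent.FI Pool.Agent.FJ

theorem TPD_tot (s : Finset ℕ) (hs : ∀ p ∈ s, p.Prime) :
    Nat.totient (∏ p ∈ s, p) = ∏ p ∈ s, (p - 1) := by
  classical
  induction s using Finset.induction_on with
  | empty => simp
  | insert a s ha ih =>
    have hs' : ∀ p ∈ s, p.Prime := fun p hp => hs p (mem_insert_of_mem hp)
    have hap : a.Prime := hs a (mem_insert_self a s)
    rw [prod_insert ha, prod_insert ha, Nat.totient_mul, ih hs', Nat.totient_prime hap]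
    refine Nat.Coprime.prod_right fun p hp => ?_
    exact (Nat.coprime_primes hap (hs' p hp)).2 (fun h => ha (h ▸ hp))

theorem TPD : TPD_stmt := by
  intro D hD
  have hD0 : D ≠ 0 := by omega
  rw [Nat.sum_divisors_filter_squarefree hD0, Nat.factors_eq]
  have hset : (D.primeFactorsList : Multiset ℕ).toFinset = D.primeFactors := rfl
  rw [hset]
  have h1 : ∀ t ∈ D.primeFactors.powerset, (1 / (Nat.totient t.val.prod : ℝ)) = ∏ p ∈ t, (1 / ((p : ℝ) - 1)) := by
    intro t ht
    have ht' : ∀ p ∈ t, p.Prime := fun p hp => Nat.prime_of_mem_primeFactors (mem_powerset.1 ht hp)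
    have e : t.val.prod = ∏ p ∈ t, p := by
      rw [Finset.prod_val]
      rfl
    rw [e, TPD_tot t ht', Nat.cast_prod, Finset.prod_div_distrib, Finset.prod_const_one]
    congr 1
    refine prod_congr rfl fun p hp => ?_
    have := (ht' p hp).one_lt
    rw [Nat.cast_sub (by omega)]
    simp
  rw [sum_congr rfl h1, ← Finset.prod_one_add]
  have h2 : ∀ p ∈ D.primeFactors, 1 + 1 / ((p : ℝ) - 1) = p / (p - 1) := by
    intro p hp
    have hp1 : (1 : ℝ) < p := by exact_mod_cast (Nat.prime_of_mem_primeFactors hp).one_lt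
    have : (p : ℝ) - 1 ≠ 0 := by linarith
    field_simp
    ring
  rw [prod_congr rfl h2, Finset.prod_div_distrib]
  have h3 : (Nat.totient D : ℝ) * ∏ p ∈ D.primeFactors, (p : ℝ) = D * ∏ p ∈ D.primeFactors, ((p : ℝ) - 1) := by
    have h4 := Nat.totient_mul_prod_primeFactors D
    have h5 := congrArg (fun n : ℕ => (n : ℝ)) h4
    simp only [Nat.cast_mul, Nat.cast_prod] at h5
    rw [h5]
    congr 1
    refine prod_congr rfl fun p hp => ?_
    have := (Nat.prime_of_mem_primeFactors hp).one_lt
    rw [Nat.cast_sub (by omega)]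
    simp
  have hphi : (Nat.totient D : ℝ) ≠ 0 := by
    have := Nat.totient_pos.2 (by omega : 0 < D)
    positivity
  have hDr : (D : ℝ) ≠ 0 := by exact_mod_cast hD0
  have hprod : ∏ p ∈ D.primeFactors, ((p : ℝ) - 1) ≠ 0 := by
    refine prod_ne_zero_iff.2 fun p hp => ?_
    have hp1 : (1 : ℝ) < p := by exact_mod_cast (Nat.prime_of_mem_primeFactors hp).one_lt
    linarith
  rw [div_mul_div_comm, one_mul, eq_div_iff (mul_ne_zero hDr hprod), ← h3]
  field_simp

end Pool.Agent.EU
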